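import Pool.Agent.H82.EUC.MainB

/-!
# Stable matchings in the 1-Euclidean model and independent sets of grid intersection graphs
-/

set_option autoImplicit false

namespace Pool.Agent.Results.MP_d7577e_lc.GridIntersection

/-- A 1-Euclidean instance: `n` men and `n` women, every person has a preference point and a
position on the real line. -/
structure Inst (n : ℕ) where
  prefM : Fin n → ℝ
  posM : Fin n → ℝ
  prefW : Fin n → ℝ
  posW : Fin n → ℝ

/-- Distance from the preference point of the man `m` to the woman `w`; smaller is better. -/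
def Inst.dM {n : ℕ} (I : Inst n) (m w : Fin n) : ℝ := |I.prefM m - I.posW w|

/-- Distance from the preference point of the woman `w` to the man `m`; smaller is better. -/
def Inst.dW {n : ℕ} (I : Inst n) (w m : Fin n) : ℝ := |I.prefW w - I.posM m|

/-- No ties. -/
def Inst.Strict {n : ℕ} (I : Inst n) : Prop :=
  (∀ m, Function.Injective (I.dM m)) ∧ ∀ w, Function.Injective (I.dW w)

/-- All preference points and positions are natural numbers, at most `B`. -/
def Inst.Bdd {n : ℕ} (I : Inst n) (B : ℕ) : Prop :=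
  ∀ i, (∃ a : ℕ, a ≤ B ∧ I.prefM i = a) ∧ (∃ a : ℕ, a ≤ B ∧ I.posM i = a) ∧
    (∃ a : ℕ, a ≤ B ∧ I.prefW i = a) ∧ ∃ a : ℕ, a ≤ B ∧ I.posW i = a

/-- The matching `σ` (the man `m` is matched with the woman `σ m`) has no blocking pair. -/
def Inst.Stable {n : ℕ} (I : Inst n) (σ : Equiv.Perm (Fin n)) : Prop :=
  ∀ m w, ¬ (I.dM m w < I.dM m (σ m) ∧ I.dW w m < I.dW w (σ.symm w))

/-- Every woman likes her partner in `τ` at least as much as her partner in `σ`. -/
def Inst.WLe {n : ℕ} (I : Inst n) (σ τ : Equiv.Perm (Fin n)) : Prop :=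
  ∀ w, I.dW w (τ.symm w) ≤ I.dW w (σ.symm w)

/-- The vertical segment at `x v` from `lo v` to `hi v` and the horizontal segment at height `y e`
from `l e` to `r e` have a common point. -/
def Meets {V E : Type} (x lo hi : V → ℝ) (y l r : E → ℝ) (v : V) (e : E) : Prop :=
  ∃ p : ℝ × ℝ, (p.1 = x v ∧ lo v ≤ p.2 ∧ p.2 ≤ hi v) ∧ p.2 = y e ∧ l e ≤ p.1 ∧ p.1 ≤ r e

theorem meets_iff {V E : Type} (x lo hi : V → ℝ) (y l r : E → ℝ) (v : V) (e : E) :
    Meets x lo hi y l r v e ↔ Pool.EUC.MeetR x lo hi y l r v e := by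
  constructor
  · rintro ⟨⟨a, b⟩, ⟨rfl, h2, h3⟩, rfl, h5, h6⟩
    exact ⟨h5, h6, h2, h3⟩
  · rintro ⟨h1, h2, h3, h4⟩
    exact ⟨(x v, y e), ⟨rfl, h3, h4⟩, rfl, h1, h2⟩

/-- For finitely many vertical segments `V` and horizontal segments `E` in the plane there is a
1-Euclidean instance without ties, with `n = 2 (|V| + |E|)` men and women and with coordinates in
`{0, ..., 4 ^ (n + 5)}`, whose stable matchings, in the order of the women, are isomorphic to the
closed sets of the poset in which `v` is below `e` iff the two segments meet; so their number is the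
number of independent sets of the bipartite intersection graph. -/
theorem result (V E : Type) [Finite V] [Finite E] (x lo hi : V → ℝ) (y l r : E → ℝ)
    (hV : ∀ v, lo v ≤ hi v) (hE : ∀ e, l e ≤ r e) (n : ℕ)
    (hn : n = 2 * (Nat.card V + Nat.card E)) :
    ∃ I : Inst n, I.Strict ∧ I.Bdd (4 ^ (n + 5)) ∧
      (∃ f : {S : Set (V ⊕ E) // ∀ v e, Meets x lo hi y l r v e → Sum.inr e ∈ S →
          Sum.inl v ∈ S} ≃ {σ : Equiv.Perm (Fin n) // I.Stable σ},
        ∀ S T, S.1 ⊆ T.1 ↔ I.WLe (f S).1 (f T).1) ∧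
      Nat.card {σ : Equiv.Perm (Fin n) // I.Stable σ} =
        Nat.card {S : Set (V ⊕ E) // ∀ v e, Meets x lo hi y l r v e →
          ¬ (Sum.inl v ∈ S ∧ Sum.inr e ∈ S)} := by
  subst hn
  have hm : Meets x lo hi y l r = Pool.EUC.MeetR x lo hi y l r := by
    funext v e
    exact propext (meets_iff x lo hi y l r v e)
  rw [hm]
  obtain ⟨I, h1, h2, h3, h4, h5⟩ := Pool.EUC.mainB_thm V E x lo hi y l r hV hE
  exact ⟨{ prefM := I.prefM, posM := I.posM, prefW := I.prefW, posW := I.posW },
    ⟨h1, h2⟩, h3, h4, h5⟩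

end Pool.Agent.Results.MP_d7577e_lc.GridIntersection
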