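import Pool.Agent.H82.EUC.MainC
import Pool.Agent.H82.EUC.ONE
import Pool.Agent.H82.EUC.MainB

/-!
# Stable matchings for single-peaked preferences: planar structure and unrealisable posets
-/

set_option autoImplicit false

namespace Pool.Agent.Results.MP_d7577e_lc.SinglePeaked

/-- A stable marriage instance: `dM m w` (`dW w m`) is the badness of the woman `w` for the man `m`
(of the man `m` for the woman `w`); smaller is better. -/
structure Inst (n : ℕ) where
  dM : Fin n → Fin n → ℝ
  dW : Fin n → Fin n → ℝ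

/-- No ties. -/
def Inst.Strict {n : ℕ} (I : Inst n) : Prop :=
  (∀ m, Function.Injective (I.dM m)) ∧ ∀ w, Function.Injective (I.dW w)

/-- The preferences `d` over `Fin n` are single-peaked for the order given by `x`. -/
def Peaked {n : ℕ} (x : Fin n → ℝ) (d : Fin n → Fin n → ℝ) : Prop :=
  Function.Injective x ∧ ∀ i a b c, x a < x b → x b < x c → d i b ≤ max (d i a) (d i c)

/-- Both sides are single-peaked for some order of the other side. -/
def Inst.PeakedBoth {n : ℕ} (I : Inst n) : Prop :=
  (∃ x, Peaked x I.dM) ∧ ∃ x, Peaked x I.dW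

/-- 1-Euclidean: every person has a preference point and a position on the real line. -/
def Inst.Euclidean {n : ℕ} (I : Inst n) : Prop :=
  ∃ prefM posM prefW posW : Fin n → ℝ, (∀ m w, I.dM m w = |prefM m - posW w|) ∧
    ∀ w m, I.dW w m = |prefW w - posM m|

/-- Only the men are 1-Euclidean; the women are arbitrary. -/
def Inst.MenEuclidean {n : ℕ} (I : Inst n) : Prop :=
  ∃ pref pos : Fin n → ℝ, ∀ m w, I.dM m w = |pref m - pos w|

/-- The matching `σ` (the man `m` is matched with the woman `σ m`) has no blocking pair. -/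
def Inst.Stable {n : ℕ} (I : Inst n) (σ : Equiv.Perm (Fin n)) : Prop :=
  ∀ m w, ¬ (I.dM m w < I.dM m (σ m) ∧ I.dW w m < I.dW w (σ.symm w))

/-- Every woman likes her partner in `τ` at least as much as her partner in `σ`. -/
def Inst.WLe {n : ℕ} (I : Inst n) (σ τ : Equiv.Perm (Fin n)) : Prop :=
  ∀ w, I.dW w (τ.symm w) ≤ I.dW w (σ.symm w)

/-- Every man likes his partner in `τ` at least as much as his partner in `σ`. -/
def Inst.MLe {n : ℕ} (I : Inst n) (σ τ : Equiv.Perm (Fin n)) : Prop :=
  ∀ m, I.dM m (τ m) ≤ I.dM m (σ m)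

/-- The set `K` with the relation `r` is isomorphic to the set of the matchings `σ` with `Q σ`, with
the relation `le`. -/
def Iso {K : Type} {n : ℕ} (r : K → K → Prop) (Q : Equiv.Perm (Fin n) → Prop)
    (le : Equiv.Perm (Fin n) → Equiv.Perm (Fin n) → Prop) : Prop :=
  ∃ f : K ≃ {σ : Equiv.Perm (Fin n) // Q σ}, ∀ S T, r S T ↔ le (f S).1 (f T).1

/-- The closed sets of the incidence poset of `G` (vertices and edges; `v` is below `e` if `v` is an
end of `e`): with an edge they contain its ends. -/
def Clo {V : Type} (G : SimpleGraph V) : Type :=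
  {S : Set (V ⊕ G.edgeSet) // ∀ (v : V) (e : G.edgeSet), v ∈ e.1 → Sum.inr e ∈ S → Sum.inl v ∈ S}

/-- Five vertices joined by walks; walks without a common end have no common vertex. -/
def HasK5 {V : Type} (G : SimpleGraph V) : Prop :=
  ∃ (c : Fin 5 → V) (p : ∀ i j, G.Walk (c i) (c j)), Function.Injective c ∧
    ∀ i j k l, i ≠ j → k ≠ l → i ≠ k → i ≠ l → j ≠ k → j ≠ l →
      (p i j).support.Disjoint (p k l).support

/-- Three and three vertices joined by walks; walks without a common end have no common vertex. -/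
def HasK33 {V : Type} (G : SimpleGraph V) : Prop :=
  ∃ (a b : Fin 3 → V) (p : ∀ i j, G.Walk (a i) (b j)), Function.Injective a ∧
    Function.Injective b ∧ (∀ i j, a i ≠ b j) ∧
    ∀ i j k l, i ≠ k → j ≠ l → (p i j).support.Disjoint (p k l).support

/-- (1) Let `I` have no ties and be single-peaked on both sides or 1-Euclidean, `le` the order of the
women or of the men on the matchings, and `Q` the set of all stable matchings or of those in an
interval.  If `Q` is isomorphic to the lower sets of a poset `P`, there are compact path-connected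
plane sets `F x`, disjoint for incomparable elements and meeting for covering pairs.  If `G` has a
`K_5` or a `K_{3,3}` as above, `Q` is not isomorphic to the closed sets of the incidence poset of
`G`.  (2) If only the men are 1-Euclidean, all finite posets `P` occur, with `2 |P|` men and women. -/
theorem result :
    (∀ (n : ℕ) (I : Inst n), I.Strict → (I.PeakedBoth ∨ I.Euclidean) →
      ∀ le : Equiv.Perm (Fin n) → Equiv.Perm (Fin n) → Prop, (le = I.WLe ∨ le = I.MLe) →
      ∀ Q : Equiv.Perm (Fin n) → Prop, (Q = I.Stable ∨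
        ∃ μ ν, Q = fun σ => I.Stable σ ∧ le μ σ ∧ le σ ν) →
      (∀ (P : Type) [PartialOrder P], Iso (fun S T : LowerSet P => S ≤ T) Q le →
        ∃ F : P → Set (ℝ × ℝ), (∀ x, IsCompact (F x) ∧ IsPathConnected (F x)) ∧
          (∀ x y, ¬ x ≤ y → ¬ y ≤ x → Disjoint (F x) (F y)) ∧
          ∀ x y, x ⋖ y → (F x ∩ F y).Nonempty) ∧
      ∀ (V : Type) (G : SimpleGraph V), HasK5 G ∨ HasK33 G →
        ¬ Iso (fun S T : Clo G => S.1 ⊆ T.1) Q le) ∧
    ∀ (P : Type) [Finite P] [PartialOrder P] (n : ℕ), n = 2 * Nat.card P →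
      ∃ I : Inst n, I.Strict ∧ I.MenEuclidean ∧
        Iso (fun S T : LowerSet P => S ≤ T) I.Stable I.WLe := by
  constructor
  · intro n I hs hI le hle Q hQ
    rcases hI with ⟨⟨x, hx⟩, ⟨y, hy⟩⟩ | ⟨pM, qM, pW, qW, h1, h2⟩
    · exact Pool.EUC.mainC_thm n { posM := y, posW := x, dM := I.dM, dW := I.dW }
        { iM := hs.1, iW := hs.2, jM := hy.1, jW := hx.1, qM := hx.2, qW := hy.2 } le hle Q hQ
    · exact Pool.EUC.mainC_thm n _ (Pool.EUC.euclid_ok pM qM pW qW I.dM I.dW h1 h2 hs.1 hs.2)
        le hle Q hQ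
  · intro P _ _ n hn
    obtain ⟨dM, dW, pref, pos, h1, h2, h3, h4⟩ := Pool.EUC.one_thm
      (Pool.EUC.bke_thm Pool.EUC.bks82_thm (Pool.EUC.bkc_thm (Pool.EUC.bki_thm (Pool.EUC.bko_thm
        Pool.EUC.met_thm (Pool.EUC.jet_thm Pool.EUC.met_thm) Pool.EUC.bks82_thm)))) P n hn
    exact ⟨{ dM := dM, dW := dW }, ⟨h1, h2⟩, ⟨pref, pos, h3⟩, h4⟩

end Pool.Agent.Results.MP_d7577e_lc.SinglePeaked
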