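import Pool.Agent.H82.EUC.MainC
import Pool.Agent.H82.NTC.FinB

/-!
# 1-Euclidean stable marriage: exactly the posets with a planar string representation
-/

set_option autoImplicit false

namespace Pool.Agent.Results.MP_d7577e_lc.StringPosets

/-- A stable marriage instance: `dM m w` (`dW w m`) is the badness of the woman `w` for the man `m`
(of the man `m` for the woman `w`); smaller is better. -/
structure Inst (n : ℕ) where
  dM : Fin n → Fin n → ℝ
  dW : Fin n → Fin n → ℝ

/-- No ties. -/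
def Inst.Strict {n : ℕ} (I : Inst n) : Prop :=
  (∀ m, Function.Injective (I.dM m)) ∧ ∀ w, Function.Injective (I.dW w)

/-- 1-Euclidean: every person has a preference point and a position on the real line. -/
def Inst.Euclidean {n : ℕ} (I : Inst n) : Prop :=
  ∃ prefM posM prefW posW : Fin n → ℝ, (∀ m w, I.dM m w = |prefM m - posW w|) ∧
    ∀ w m, I.dW w m = |prefW w - posM m|

/-- 1-Euclidean with integer points of absolute value at most `B`. -/
def Inst.EuclideanInt {n : ℕ} (I : Inst n) (B : ℤ) : Prop :=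
  ∃ prefM posM prefW posW : Fin n → ℤ,
    (∀ i, |prefM i| ≤ B ∧ |posM i| ≤ B ∧ |prefW i| ≤ B ∧ |posW i| ≤ B) ∧
    (∀ m w, I.dM m w = |(prefM m : ℝ) - posW w|) ∧ ∀ w m, I.dW w m = |(prefW w : ℝ) - posM m|

/-- The preferences `d` over `Fin n` are single-peaked for the order given by `x`. -/
def Peaked {n : ℕ} (x : Fin n → ℝ) (d : Fin n → Fin n → ℝ) : Prop :=
  Function.Injective x ∧ ∀ i a b c, x a < x b → x b < x c → d i b ≤ max (d i a) (d i c)

/-- Both sides are single-peaked for some order of the other side. -/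
def Inst.PeakedBoth {n : ℕ} (I : Inst n) : Prop :=
  (∃ x, Peaked x I.dM) ∧ ∃ x, Peaked x I.dW

/-- The matching `σ` (the man `m` is matched with the woman `σ m`) has no blocking pair. -/
def Inst.Stable {n : ℕ} (I : Inst n) (σ : Equiv.Perm (Fin n)) : Prop :=
  ∀ m w, ¬ (I.dM m w < I.dM m (σ m) ∧ I.dW w m < I.dW w (σ.symm w))

/-- Every woman likes her partner in `τ` at least as much as her partner in `σ`. -/
def Inst.WLe {n : ℕ} (I : Inst n) (σ τ : Equiv.Perm (Fin n)) : Prop :=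
  ∀ w, I.dW w (τ.symm w) ≤ I.dW w (σ.symm w)

/-- The lower sets of `P`, with inclusion, are isomorphic to the stable matchings of `I`, with the
order `WLe` of the women. -/
def Inst.Realises {n : ℕ} (I : Inst n) (P : Type) [PartialOrder P] : Prop :=
  ∃ f : LowerSet P ≃ {σ : Equiv.Perm (Fin n) // I.Stable σ}, ∀ S T, S ≤ T ↔ I.WLe (f S).1 (f T).1

/-- Compact path-connected plane sets for the elements of `P`: disjoint for incomparable elements,
meeting for covering pairs. -/
def StringRep (P : Type) [PartialOrder P] : Prop :=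
  ∃ F : P → Set (ℝ × ℝ), (∀ x, IsCompact (F x) ∧ IsPathConnected (F x)) ∧
    (∀ x y, ¬ x ≤ y → ¬ y ≤ x → Disjoint (F x) (F y)) ∧ ∀ x y, x ⋖ y → (F x ∩ F y).Nonempty

/-- A unit step inside the set `M` of grid points. -/
def Step (M : Set (ℤ × ℤ)) (v w : ℤ × ℤ) : Prop :=
  v ∈ M ∧ w ∈ M ∧ (w = (v.1 + 1, v.2) ∨ v = (w.1 + 1, w.2) ∨ w = (v.1, v.2 + 1) ∨
    v = (w.1, w.2 + 1))

/-- The discrete form: finite nonempty sets of grid points, connected by unit steps, disjoint for
incomparable elements, with a common point for covering pairs. -/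
structure GridRep (P : Type) [PartialOrder P] (M : P → Set (ℤ × ℤ)) : Prop where
  fin : ∀ x, (M x).Finite
  ne : ∀ x, (M x).Nonempty
  conn : ∀ x, ∀ v ∈ M x, ∀ w ∈ M x, Relation.ReflTransGen (Step (M x)) v w
  dis : ∀ x y, ¬ x ≤ y → ¬ y ≤ x → Disjoint (M x) (M y)
  cov : ∀ x y, x ⋖ y → (M x ∩ M y).Nonempty

/-- For a finite poset `P` are equivalent: `P` is realised by the stable matchings of a 1-Euclidean
instance without ties, with integer points; the same with real points; `P` is realised by an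
instance without ties which is single-peaked on both sides; `P` has a string representation; `P` has
a grid representation.  A grid representation with `s` points in `[-L, L] ^ 2` gives a 1-Euclidean
instance with `n` men and `n` women, `n ≤ 56 s`, and a bound for its integer points. -/
theorem result (P : Type) [Fintype P] [PartialOrder P] :
    List.TFAE
      [∃ (n : ℕ) (I : Inst n) (B : ℤ), I.Strict ∧ I.EuclideanInt B ∧ I.Realises P,
        ∃ (n : ℕ) (I : Inst n), I.Strict ∧ I.Euclidean ∧ I.Realises P,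
        ∃ (n : ℕ) (I : Inst n), I.Strict ∧ I.PeakedBoth ∧ I.Realises P,
        StringRep P,
        ∃ M : P → Set (ℤ × ℤ), GridRep P M] ∧
    ∀ (M : P → Set (ℤ × ℤ)) (L : ℕ), GridRep P M → (∀ x, ∀ v ∈ M x, |v.1| ≤ L ∧ |v.2| ≤ L) →
      ∃ n ≤ 56 * ∑ x, (M x).ncard, ∃ I : Inst n, I.Strict ∧
        I.EuclideanInt (10 ^ 6 * (n + 1) * (L + 1) * (Fintype.card P + 1) * 4 ^ Fintype.card P) ∧
        I.Realises P := by
  have key : ∀ (M : P → Set (ℤ × ℤ)) (L : ℕ), GridRep P M →
      (∀ x, ∀ v ∈ M x, |v.1| ≤ L ∧ |v.2| ≤ L) →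
      ∃ n ≤ 56 * ∑ x, (M x).ncard, ∃ I : Inst n, I.Strict ∧
        I.EuclideanInt (10 ^ 6 * (n + 1) * (L + 1) * (Fintype.card P + 1) * 4 ^ Fintype.card P) ∧
        I.Realises P := by
    intro M L hM hL
    have hG : ∀ x v w, Relation.ReflTransGen (Step (M x)) v w →
        Relation.ReflTransGen (Pool.NET.G0 (M x) fun _ => True) v w := by
      intro x v w h
      induction h with
      | refl => exact Relation.ReflTransGen.refl
      | tail _ h1 ih =>
        obtain ⟨ha, hb, h⟩ := h1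
        refine ih.tail ⟨ha, hb, ?_⟩
        rcases h with h | h | h | h
        · exact Or.inl ⟨h, trivial⟩
        · exact Or.inr (Or.inl ⟨h, trivial⟩)
        · exact Or.inr (Or.inr (Or.inl ⟨h, trivial⟩))
        · exact Or.inr (Or.inr (Or.inr ⟨h, trivial⟩))
    obtain ⟨n, hn, pM, qM, pW, qW, hB, h1, h2, f, hf⟩ := Pool.NTC.rlh_main P M L
      (fun x => ⟨hM.fin x, hM.ne x, fun v hv w hw => hG x v w (hM.conn x v hv w hw)⟩) hM.dis hM.cov hL
    exact ⟨n, hn, { dM := fun i j => |(pM i : ℝ) - (qW j : ℝ)|, dW := fun i j => |(pW i : ℝ) - (qM j : ℝ)| },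
      ⟨h1, h2⟩, ⟨pM, qM, pW, qW, hB, fun _ _ => rfl, fun _ _ => rfl⟩, f, hf⟩
  refine ⟨?_, key⟩
  tfae_have 1 → 2 := by
    rintro ⟨n, I, B, h1, ⟨pM, qM, pW, qW, _, h2, h3⟩, h4⟩
    exact ⟨n, I, h1, ⟨fun i => pM i, fun i => qM i, fun i => pW i, fun i => qW i, h2, h3⟩, h4⟩
  tfae_have 2 → 3 := by
    rintro ⟨n, I, h1, ⟨pM, qM, pW, qW, h2, h3⟩, h4⟩
    have h5 := Pool.EUC.euclid_ok pM qM pW qW I.dM I.dW h2 h3 h1.1 h1.2
    exact ⟨n, I, h1, ⟨⟨_, h5.jW, h5.qM⟩, ⟨_, h5.jM, h5.qW⟩⟩, h4⟩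
  tfae_have 3 → 4 := by
    rintro ⟨n, I, hs, ⟨⟨x, hx⟩, ⟨y, hy⟩⟩, hf⟩
    exact (Pool.EUC.mainC_thm n { posM := y, posW := x, dM := I.dM, dW := I.dW }
      { iM := hs.1, iW := hs.2, jM := hy.1, jW := hx.1, qM := hx.2, qW := hy.2 } I.WLe
      (Or.inl rfl) I.Stable (Or.inl rfl)).1 P hf
  tfae_have 4 → 5 := by
    rintro ⟨F, h1, h2, h3⟩
    obtain ⟨M, hM, hd, hc⟩ := Pool.NTC.top_main P F h1 h2 h3
    have hG : ∀ x v w, Relation.ReflTransGen (Pool.NET.G0 (M x) fun _ => True) v w →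
        Relation.ReflTransGen (Step (M x)) v w := by
      intro x v w h
      induction h with
      | refl => exact Relation.ReflTransGen.refl
      | tail _ h1 ih =>
        obtain ⟨ha, hb, h⟩ := h1
        refine ih.tail ⟨ha, hb, ?_⟩
        rcases h with h | h | h | h
        · exact Or.inl h.1
        · exact Or.inr (Or.inl h.1)
        · exact Or.inr (Or.inr (Or.inl h.1))
        · exact Or.inr (Or.inr (Or.inr h.1))
    exact ⟨M, ⟨fun x => (hM x).1, fun x => (hM x).2.1,
      fun x v hv w hw => hG x v w ((hM x).2.2 v hv w hw), hd, hc⟩⟩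
  tfae_have 5 → 1 := by
    rintro ⟨M, hM⟩
    obtain ⟨L, hL⟩ : ∃ L : ℕ, ∀ x, ∀ v ∈ M x, |v.1| ≤ L ∧ |v.2| ≤ L := by
      have hfin : (⋃ x, M x).Finite := Set.finite_iUnion hM.fin
      obtain ⟨L, hL⟩ := (hfin.image fun v => v.1.natAbs + v.2.natAbs).bddAbove
      refine ⟨L, fun x v hv => ?_⟩
      have h1 := hL ⟨v, Set.mem_iUnion.mpr ⟨x, hv⟩, rfl⟩
      have h2 : v.1.natAbs + v.2.natAbs ≤ L := h1
      rw [Int.abs_eq_natAbs, Int.abs_eq_natAbs]
      constructor <;> omega
    obtain ⟨n, _, I, h⟩ := key M L hM hL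
    exact ⟨n, I, _, h⟩
  tfae_finish

end Pool.Agent.Results.MP_d7577e_lc.StringPosets
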