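import Pool.Agent.H19.SMA.Attr

/-!
# Stable matchings in the 2-attribute model realise all finite posets
-/

set_option autoImplicit false

namespace Pool.Agent.Results.MP_d7577e_lc.TwoAttribute

open Pool.SMA

/-- Finite posets have linear extensions. -/
theorem exists_ext (P : Type) [Finite P] [PartialOrder P] :
    ∃ l : P ≃ Fin (Nat.card P), ∀ x y, x < y → l x < l y := by
  classical
  have : Finite (LinearExtension P) := inferInstanceAs (Finite P)
  have : Fintype (LinearExtension P) := Fintype.ofFinite (LinearExtension P)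
  have hc : Fintype.card (LinearExtension P) = Nat.card P := by
    rw [← Nat.card_eq_fintype_card]
    rfl
  let o : LinearExtension P ≃o Fin (Nat.card P) := (Fintype.orderIsoFinOfCardEq _ hc).symm
  refine ⟨o.toEquiv, fun x y hxy => ?_⟩
  have h1 : (toLinearExtension x : LinearExtension P) ≤ toLinearExtension y :=
    toLinearExtension.monotone hxy.le
  have h2 : (toLinearExtension x : LinearExtension P) ≠ toLinearExtension y := fun h => hxy.ne h
  exact o.strictMono (lt_of_le_of_ne h1 h2)

/-- Closed sets of the relation and lower sets of the poset. -/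
theorem exists_low (P : Type) [PartialOrder P] {m : ℕ} (l : P ≃ Fin m)
    (r : Fin m → Fin m → Bool) (hr : ∀ x y, r (l x) (l y) = true ↔ x < y) :
    ∃ E : LowerSet P ≃ {S : Set (Fin m) // ∀ i j, r i j = true → j ∈ S → i ∈ S},
      ∀ S T, S ≤ T ↔ (E S).1 ⊆ (E T).1 := by
  let E : LowerSet P ≃ {S : Set (Fin m) // ∀ i j, r i j = true → j ∈ S → i ∈ S} :=
    { toFun := fun S => ⟨{i | l.symm i ∈ S}, by
        intro i j hij hj
        have h1 : l.symm i < l.symm j := by
          rw [← hr, Equiv.apply_symm_apply, Equiv.apply_symm_apply]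
          exact hij
        exact S.lower h1.le hj⟩
      invFun := fun S => ⟨{x | l x ∈ S.1}, by
        intro x y hyx hx
        rcases hyx.lt_or_eq with h | h
        · exact S.2 (l y) (l x) ((hr y x).2 h) hx
        · rw [h]
          exact hx⟩
      left_inv := by
        intro S
        ext x
        change l.symm (l x) ∈ S ↔ x ∈ S
        rw [Equiv.symm_apply_apply]
      right_inv := by
        rintro ⟨S, hS⟩
        apply Subtype.ext
        ext i
        change l (l.symm i) ∈ S ↔ i ∈ S
        rw [Equiv.apply_symm_apply] }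
  refine ⟨E, fun S T => ?_⟩
  constructor
  · intro h i hi
    exact h hi
  · intro h x hx
    have h1 : l x ∈ (E S).1 := by
      change l.symm (l x) ∈ S
      rw [Equiv.symm_apply_apply]
      exact hx
    have h2 : l.symm (l x) ∈ T := h h1
    rwa [Equiv.symm_apply_apply] at h2

/-- The stable matchings of the explicit 2-attribute instance `inst r` correspond to the closed sets
of `r`, and every finite poset arises. -/
theorem result :
    (∀ (m : ℕ) (r : Fin m → Fin m → Bool), (∀ i j, r i j = true → i < j) →
      (inst r).Strict ∧ (inst r).Bdd (20 * ((m : ℤ) + 3) ^ 6) ∧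
      ∃ e : {S : Set (Fin m) // ∀ i j, r i j = true → j ∈ S → i ∈ S} ≃
          {σ : Equiv.Perm (Fin (m * (m + 3))) // (inst r).Stable σ},
        ∀ S T, S.1 ⊆ T.1 ↔ (inst r).WLe (e S).1 (e T).1) ∧
    ∀ (P : Type) [Finite P] [PartialOrder P], ∃ l : P ≃ Fin (Nat.card P),
      (∀ x y, x < y → l x < l y) ∧
      ∀ r : Fin (Nat.card P) → Fin (Nat.card P) → Bool,
        (∀ x y, r (l x) (l y) = true ↔ x < y) →
        ∃ e : LowerSet P ≃
            {σ : Equiv.Perm (Fin (Nat.card P * (Nat.card P + 3))) // (inst r).Stable σ},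
          ∀ S T, S ≤ T ↔ (inst r).WLe (e S).1 (e T).1 := by
  refine ⟨fun m r hr => ⟨strict r, bdd r, inst_main r hr⟩, ?_⟩
  intro P _ _
  obtain ⟨l, hl⟩ := exists_ext P
  refine ⟨l, hl, fun r hr => ?_⟩
  obtain ⟨E, hE⟩ := exists_low P l r hr
  obtain ⟨e, he⟩ := inst_main r (by
    intro i j hij
    have h1 : l.symm i < l.symm j := by
      rw [← hr, Equiv.apply_symm_apply, Equiv.apply_symm_apply]
      exact hij
    have h2 := hl _ _ h1
    rwa [Equiv.apply_symm_apply, Equiv.apply_symm_apply] at h2)
  exact ⟨E.trans e, fun S T => (hE S T).trans (he (E S) (E T))⟩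

end Pool.Agent.Results.MP_d7577e_lc.TwoAttribute
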